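import Pool.Agent.Helper66_SQ.Pairs

set_option autoImplicit false

/-!
# MP_5f6ee5_nt, two integers, `2 k` between 1480299 and 144000000: a fast check of chains of pairs

The pairs are `c = 3 q` with `q` and `3 q + 2` prime. Primality of a number `n` below `16384²` is
tested by `gcd n P = 1`, where `P` is two times the product of the odd numbers below `16384`.
-/

namespace Pool.Agent.SQ.H72

open ArithmeticFunction Pool.Agent.SQ.H66

/-- The product of the odd numbers `2 s + 1, …, 2 (s + 2 ^ k) - 1`. -/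
def pr : ℕ → ℕ → ℕ
  | 0, s => 2 * s + 1
  | k + 1, s => pr k s * pr k (s + 2 ^ k)

/-- Two times the product of the odd numbers below `16384`. -/
def bigP : ℕ := 2 * pr 13 0

lemma dvd_pr : ∀ k s t : ℕ, s ≤ t → t < s + 2 ^ k → 2 * t + 1 ∣ pr k s := by
  intro k
  induction k with
  | zero =>
    intro s t h1 h2
    have : t = s := by
      rw [pow_zero] at h2
      omega
    rw [this, pr]
  | succ k ih =>
    intro s t h1 h2
    rw [pr]
    by_cases h : t < s + 2 ^ k
    · exact (ih s t h1 h).mul_right _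
    · refine (ih (s + 2 ^ k) t (by omega) ?_).mul_left _
      rw [pow_succ] at h2
      omega

lemma odd_of_gcd {n : ℕ} (h : Nat.gcd n bigP = 1) : Odd n := by
  rw [← Nat.not_even_iff_odd]
  intro he
  have h1 : 2 ∣ Nat.gcd n bigP := Nat.dvd_gcd he.two_dvd (Dvd.intro _ rfl)
  rw [h] at h1
  omega

lemma prime_of_gcd {n : ℕ} (h : Nat.gcd n bigP = 1) (h1 : 1 < n) (h2 : n < 268435456) :
    n.Prime := by
  by_contra hcon
  have h3 := Nat.minFac_sq_le_self (by omega) hcon
  have hp : n.minFac.Prime := Nat.minFac_prime (by omega)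
  have hd := Nat.minFac_dvd n
  have ho : Odd n.minFac := (odd_of_gcd h).of_dvd_nat hd
  have h4 : n.minFac < 16384 := by
    by_contra h5
    push Not at h5
    have : 16384 * 16384 ≤ n.minFac ^ 2 := by
      rw [pow_two]
      exact Nat.mul_le_mul h5 h5
    omega
  obtain ⟨t, ht⟩ := ho
  have h6 : n.minFac ∣ bigP := by
    rw [ht]
    exact (dvd_pr 13 0 t (by omega) (by norm_num; omega)).mul_left _
  have h7 : n.minFac ∣ Nat.gcd n bigP := Nat.dvd_gcd hd h6
  rw [h] at h7
  exact hp.one_lt.ne' (Nat.dvd_one.mp h7)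

/-- The test of `r`, next in the chain after `q`. -/
def link (q r : ℕ) : Bool :=
  Nat.ble (Nat.succ q) r && (Nat.ble r 80000000 &&
    (Nat.ble (Nat.mul 9 (Nat.mul (Nat.sub r q) (Nat.sub r q))) (Nat.add (Nat.mul 6 q) 2) &&
      Nat.beq (Nat.gcd (Nat.mul r (Nat.add (Nat.mul 3 r) 2)) bigP) 1))

lemma isPair_of {r : ℕ} (h0 : 1 < r) (h1 : r ≤ 80000000)
    (h : Nat.gcd (r * (3 * r + 2)) bigP = 1) : IsPair (3 * r) := by
  have a : Nat.gcd r bigP = 1 := Nat.Coprime.coprime_mul_right h
  have b : Nat.gcd (3 * r + 2) bigP = 1 := Nat.Coprime.coprime_mul_left h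
  have pa := prime_of_gcd a h0 (by omega)
  have pb := prime_of_gcd b (by omega) (by omega)
  refine ⟨(by decide : Odd 3).mul (odd_of_gcd a), ?_, ?_⟩
  · rw [cardFactors_mul (by norm_num) (by omega), cardFactors_apply_prime Nat.prime_three,
      cardFactors_apply_prime pa]
    decide
  · rw [cardFactors_apply_prime pb]
    exact odd_one

lemma link_spec {q r : ℕ} (hq : 1 ≤ q) (h : link q r = true) :
    q < r ∧ (3 * r - 3 * q) * (3 * r - 3 * q) ≤ 2 * (3 * q) + 2 ∧ IsPair (3 * r) := by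
  unfold link at h
  rw [Bool.and_eq_true, Bool.and_eq_true, Bool.and_eq_true] at h
  obtain ⟨h1, h2, h3, h4⟩ := h
  have h1' : q + 1 ≤ r := Nat.le_of_ble_eq_true h1
  have h2' : r ≤ 80000000 := Nat.le_of_ble_eq_true h2
  have h3' : 9 * ((r - q) * (r - q)) ≤ 6 * q + 2 := Nat.le_of_ble_eq_true h3
  have h4' : Nat.gcd (r * (3 * r + 2)) bigP = 1 := Nat.eq_of_beq_eq_true h4
  refine ⟨by omega, ?_, isPair_of (by omega) h2' h4'⟩
  have e : 3 * r - 3 * q = 3 * (r - q) := by omega
  rw [e]
  calc 3 * (r - q) * (3 * (r - q)) = 9 * ((r - q) * (r - q)) := by ring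
    _ ≤ 6 * q + 2 := h3'
    _ = 2 * (3 * q) + 2 := by ring

/-- The check of a chain. -/
def chn : ℕ → List ℕ → Bool
  | _, [] => true
  | q, r :: l => link q r && chn r l

lemma chn_spec : ∀ (l : List ℕ) (q : ℕ), 1 ≤ q → IsPair (3 * q) → chn q l = true →
    IsPair (3 * (l.getLast?).getD q) ∧ 1 ≤ (l.getLast?).getD q ∧
      ∀ k, 3 * q < 2 * k → 2 * k ≤ 3 * (l.getLast?).getD q → Two k := by
  intro l
  induction l with
  | nil =>
    intro q h0 hq _
    refine ⟨by simpa using hq, by simpa using h0, fun k h1 h2 => ?_⟩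
    simp only [List.getLast?_nil, Option.getD_none] at h2
    omega
  | cons r l ih =>
    intro q h0 hq h
    rw [chn, Bool.and_eq_true] at h
    obtain ⟨h3, h4⟩ := h
    obtain ⟨a1, a2, a3⟩ := link_spec h0 h3
    obtain ⟨b1, b2, b3⟩ := ih r (by omega) a3 h4
    have e : ((r :: l).getLast?).getD q = (l.getLast?).getD r := by
      cases l with
      | nil => simp
      | cons x l => simp [List.getLast?_cons]
    rw [e]
    refine ⟨b1, b2, fun k h5 h6 => ?_⟩
    rcases lt_trichotomy (2 * k) (3 * r) with h7 | h7 | h7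
    · exact two_of_pairs hq a3 h5 h7 a2
    · exfalso
      have h8 := a3.1
      rw [← h7] at h8
      exact absurd h8 (Nat.not_odd_iff_even.mpr (even_two_mul k))
    · exact b3 k h7 h6

/-- The check of a chunk of a chain, from `q` to `r`. -/
def okc (q r : ℕ) (l : List ℕ) : Bool := chn q l && Nat.beq ((l.getLast?).getD q) r

lemma chunk {q r : ℕ} {l : List ℕ} (h0 : 1 ≤ q) (hq : IsPair (3 * q)) (h : okc q r l = true) :
    IsPair (3 * r) ∧ ∀ k, 3 * q < 2 * k → 2 * k ≤ 3 * r → Two k := by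
  rw [okc, Bool.and_eq_true] at h
  obtain ⟨h1, h2⟩ := h
  have h3 : (l.getLast?).getD q = r := Nat.eq_of_beq_eq_true h2
  obtain ⟨a, _, b⟩ := chn_spec l q h0 hq h1
  rw [h3] at a b
  exact ⟨a, b⟩

end Pool.Agent.SQ.H72
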