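import Pool.Agent.Helper72_SQ.FastData1
import Pool.Agent.Helper72_SQ.FastData2
import Pool.Agent.Helper66_SQ.Tiny
import Pool.Agent.Helper66_SQ.Chain1

set_option autoImplicit false

/-!
# Two odd integers with an odd number of prime factors in `((2k-1)², (2k+1)²)`, `2 k < 144000000`

Same statement as in `Pool.Agent.Helper66_SQ.Small2`, with a chain that is cheaper to check.
-/

namespace Pool.Agent.SQ.H72

open ArithmeticFunction Pool.Agent.SQ.H66

set_option maxRecDepth 100000 in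
theorem start_ok : link 493430 493433 = true := by decide +kernel

theorem two_small (k : ℕ) (hk : 1 ≤ k) (h : 2 * k < 144000000) : Two k := by
  by_cases h0 : k ≤ 261
  · exact two_tiny k hk h0
  by_cases h1 : 2 * k ≤ 1480435
  · exact two_chain1 k (by omega) h1
  have p0 : IsPair (3 * 493433) := (link_spec (by norm_num) start_ok).2.2
  obtain ⟨p1, c1⟩ := @chunk 493433 1152493 l1 (by norm_num) p0 l1_ok
  by_cases d1 : 2 * k ≤ 3 * 1152493
  · exact c1 k (by omega) d1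
  obtain ⟨p2, c2⟩ := @chunk 1152493 2104499 l2 (by norm_num) p1 l2_ok
  by_cases d2 : 2 * k ≤ 3 * 2104499
  · exact c2 k (by omega) d2
  obtain ⟨p3, c3⟩ := @chunk 2104499 3360337 l3 (by norm_num) p2 l3_ok
  by_cases d3 : 2 * k ≤ 3 * 3360337
  · exact c3 k (by omega) d3
  obtain ⟨p4, c4⟩ := @chunk 3360337 4923943 l4 (by norm_num) p3 l4_ok
  by_cases d4 : 2 * k ≤ 3 * 4923943
  · exact c4 k (by omega) d4
  obtain ⟨p5, c5⟩ := @chunk 4923943 6803543 l5 (by norm_num) p4 l5_ok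
  by_cases d5 : 2 * k ≤ 3 * 6803543
  · exact c5 k (by omega) d5
  obtain ⟨p6, c6⟩ := @chunk 6803543 8992663 l6 (by norm_num) p5 l6_ok
  by_cases d6 : 2 * k ≤ 3 * 8992663
  · exact c6 k (by omega) d6
  obtain ⟨p7, c7⟩ := @chunk 8992663 11502823 l7 (by norm_num) p6 l7_ok
  by_cases d7 : 2 * k ≤ 3 * 11502823
  · exact c7 k (by omega) d7
  obtain ⟨p8, c8⟩ := @chunk 11502823 14331019 l8 (by norm_num) p7 l8_ok
  by_cases d8 : 2 * k ≤ 3 * 14331019
  · exact c8 k (by omega) d8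
  obtain ⟨p9, c9⟩ := @chunk 14331019 17473513 l9 (by norm_num) p8 l9_ok
  by_cases d9 : 2 * k ≤ 3 * 17473513
  · exact c9 k (by omega) d9
  obtain ⟨p10, c10⟩ := @chunk 17473513 20944463 l10 (by norm_num) p9 l10_ok
  by_cases d10 : 2 * k ≤ 3 * 20944463
  · exact c10 k (by omega) d10
  obtain ⟨p11, c11⟩ := @chunk 20944463 24733369 l11 (by norm_num) p10 l11_ok
  by_cases d11 : 2 * k ≤ 3 * 24733369
  · exact c11 k (by omega) d11
  obtain ⟨p12, c12⟩ := @chunk 24733369 28846859 l12 (by norm_num) p11 l12_ok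
  by_cases d12 : 2 * k ≤ 3 * 28846859
  · exact c12 k (by omega) d12
  obtain ⟨p13, c13⟩ := @chunk 28846859 33283519 l13 (by norm_num) p12 l13_ok
  by_cases d13 : 2 * k ≤ 3 * 33283519
  · exact c13 k (by omega) d13
  obtain ⟨p14, c14⟩ := @chunk 33283519 38041013 l14 (by norm_num) p13 l14_ok
  by_cases d14 : 2 * k ≤ 3 * 38041013
  · exact c14 k (by omega) d14
  obtain ⟨p15, c15⟩ := @chunk 38041013 43119833 l15 (by norm_num) p14 l15_ok
  by_cases d15 : 2 * k ≤ 3 * 43119833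
  · exact c15 k (by omega) d15
  obtain ⟨p16, c16⟩ := @chunk 43119833 48000247 l16 (by norm_num) p15 l16_ok
  by_cases d16 : 2 * k ≤ 3 * 48000247
  · exact c16 k (by omega) d16
  exfalso
  omega

/-- Two such integers for every `k` with `1 ≤ k` and `2 k < 144000000`. -/
theorem small2 (k : ℕ) (hk : 1 ≤ k) (h : 2 * k < 144000000) :
    ∃ n m : ℕ, n ≠ m ∧ (2 * k - 1) ^ 2 < n ∧ n < (2 * k + 1) ^ 2 ∧ Odd n ∧ Odd (cardFactors n) ∧
      (2 * k - 1) ^ 2 < m ∧ m < (2 * k + 1) ^ 2 ∧ Odd m ∧ Odd (cardFactors m) := by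
  obtain ⟨n, m, hnm, ⟨n1, n2, n3, n4⟩, ⟨m1, m2, m3, m4⟩⟩ := two_small k hk h
  exact ⟨n, m, hnm.ne, n2, n3, n1, n4, m2, m3, m1, m4⟩

end Pool.Agent.SQ.H72
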