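import Pool.Agent.Helper80_SQ.Two5
import Pool.Agent.Helper72_SQ.FastSmall

/-!
MP_5f6ee5_nt. For every `k >= 1` at least two odd integers between `(2k-1)^2` and `(2k+1)^2` have
an odd number of prime factors. (As `Pool.Agent.Helper80_SQ.TwoAll` of helper80, with the cheaper
check of the small `k`.)
-/

namespace Pool.Agent.SQ.H72

open ArithmeticFunction

theorem two_all (k : ℕ) (hk : 1 ≤ k) : ∃ n m : ℕ, n ≠ m ∧
    (2 * k - 1) ^ 2 < n ∧ n < (2 * k + 1) ^ 2 ∧ Odd n ∧ Odd (cardFactors n) ∧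
    (2 * k - 1) ^ 2 < m ∧ m < (2 * k + 1) ^ 2 ∧ Odd m ∧ Odd (cardFactors m) := by
  rcases lt_or_ge (2 * k) 144000000 with h | h
  · exact small2 k hk h
  · exact Pool.Agent.SQ.H80.large2 k h

theorem two_card (k : ℕ) (hk : 1 ≤ k) : 2 ≤ ((Finset.Ioo ((2 * k - 1) ^ 2) ((2 * k + 1) ^ 2)).filter
    (fun n => Odd n ∧ Odd (cardFactors n))).card := by
  obtain ⟨n, m, hne, a1, a2, a3, a4, b1, b2, b3, b4⟩ := two_all k hk
  have hsub : ({n, m} : Finset ℕ) ⊆ (Finset.Ioo ((2 * k - 1) ^ 2) ((2 * k + 1) ^ 2)).filter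
      (fun n => Odd n ∧ Odd (cardFactors n)) := by
    intro x hx
    rw [Finset.mem_insert, Finset.mem_singleton] at hx
    rw [Finset.mem_filter, Finset.mem_Ioo]
    rcases hx with rfl | rfl
    · exact ⟨⟨a1, a2⟩, a3, a4⟩
    · exact ⟨⟨b1, b2⟩, b3, b4⟩
  have := Finset.card_le_card hsub
  rwa [Finset.card_pair hne] at this

end Pool.Agent.SQ.H72
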